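import Mathlib

/-!
# Finite cyclic models of a permutation

For a permutation `g` of `X` and a finite subset `F` of `X` there is a permutation `σ` of a finite set
`B ⊇ F` which agrees with `g` on the points `x` of `F` with `g x` in `F`, such that pairs of points of
`F` which are moved to pairs of points of `F` by a power of `σ` are moved by a power of `g` as well.
-/

set_option autoImplicit false

namespace Pool.Agent.Helper30K9.FJ

open Classical

variable {X : Type}

/-- a length `L` which is good for `g` and `F` -/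
theorem exists_len (g : Equiv.Perm X) (F : Finset X) : ∃ L : ℕ, 0 < L ∧
    ∀ x ∈ F, (g ^ (L : ℤ)) x = x ∨ ∀ y ∈ F, ∀ s : ℤ, (g ^ s) x = y →
      2 * |s| < L ∧ ∀ s' : ℤ, (g ^ s') x = y → s' = s := by
  let p : X → ℕ := fun x => if h : ∃ p : ℕ, 0 < p ∧ (g ^ p) x = x then h.choose else 1
  let d : X → X → ℕ := fun x y => if h : ∃ s : ℤ, (g ^ s) x = y then h.choose.natAbs else 0
  have hp : ∀ x, 0 < p x := by
    intro x
    by_cases h : ∃ p : ℕ, 0 < p ∧ (g ^ p) x = x
    · simp only [p, dif_pos h]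
      exact h.choose_spec.1
    · simp only [p, dif_neg h]
      exact one_pos
  refine ⟨(∏ x ∈ F, p x) * (2 * (∑ x ∈ F, ∑ y ∈ F, d x y) + 1), ?_, ?_⟩
  · exact Nat.mul_pos (Finset.prod_pos fun x _ => hp x) (by omega)
  intro x hx
  by_cases h : ∃ p : ℕ, 0 < p ∧ (g ^ p) x = x
  · left
    have h1 : (g ^ (p x)) x = x := by
      simp only [p, dif_pos h]
      exact h.choose_spec.2
    obtain ⟨k, hk⟩ : p x ∣ (∏ x ∈ F, p x) * (2 * (∑ x ∈ F, ∑ y ∈ F, d x y) + 1) :=
      (Finset.dvd_prod_of_mem p hx).mul_right _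
    rw [hk, zpow_natCast, pow_mul]
    have h2 : Function.IsFixedPt (⇑(g ^ p x)) x := h1
    have h3 := h2.iterate k
    rw [Function.IsFixedPt, ← Equiv.Perm.coe_pow] at h3
    exact h3
  · right
    have huniq : ∀ s s' : ℤ, (g ^ s) x = (g ^ s') x → s = s' := by
      have key : ∀ s s' : ℤ, s < s' → (g ^ s) x ≠ (g ^ s') x := by
        intro s s' hlt he
        apply h
        refine ⟨(s' - s).toNat, by omega, ?_⟩
        have h1 : (g ^ (-s)) ((g ^ s) x) = (g ^ (-s)) ((g ^ s') x) := by rw [he]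
        rw [← Equiv.Perm.mul_apply, ← Equiv.Perm.mul_apply, ← zpow_add, ← zpow_add,
          neg_add_cancel, zpow_zero, Equiv.Perm.one_apply] at h1
        rw [← zpow_natCast, Int.toNat_of_nonneg (by omega), sub_eq_neg_add, ← h1]
      intro s s' he
      rcases lt_trichotomy s s' with h1 | h1 | h1
      · exact absurd he (key s s' h1)
      · exact h1
      · exact absurd he.symm (key s' s h1)
    intro y hy s hs
    refine ⟨?_, fun s' hs' => huniq s' s (hs'.trans hs.symm)⟩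
    have h2 : ∃ s : ℤ, (g ^ s) x = y := ⟨s, hs⟩
    have h3 : h2.choose = s := huniq _ _ (h2.choose_spec.trans hs.symm)
    have h4 : d x y = s.natAbs := by
      simp only [d, dif_pos h2]
      rw [h3]
    have h5 : d x y ≤ ∑ x ∈ F, ∑ y ∈ F, d x y :=
      (Finset.single_le_sum (f := fun y => d x y) (fun _ _ => Nat.zero_le _) hy).trans
        (Finset.single_le_sum (f := fun x => ∑ y ∈ F, d x y) (fun _ _ => Nat.zero_le _) hx)
    have h6 : 1 ≤ ∏ x ∈ F, p x := Finset.prod_pos fun x _ => hp x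
    have h7 : 2 * (∑ x ∈ F, ∑ y ∈ F, d x y) + 1 ≤
        (∏ x ∈ F, p x) * (2 * (∑ x ∈ F, ∑ y ∈ F, d x y) + 1) := Nat.le_mul_of_pos_left _ h6
    have h8 : |s| = (s.natAbs : ℤ) := Int.abs_eq_natAbs s
    omega

/-- the relation `y = g ^ (L k) x` -/
def rel (g : Equiv.Perm X) (L : ℤ) : Setoid X where
  r x y := ∃ k : ℤ, (g ^ (L * k)) x = y
  iseqv := by
    refine ⟨fun x => ⟨0, by simp⟩, ?_, ?_⟩
    · rintro x y ⟨k, rfl⟩
      refine ⟨-k, ?_⟩
      rw [← Equiv.Perm.mul_apply, ← zpow_add]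
      simp
    · rintro x y z ⟨k, rfl⟩ ⟨l, rfl⟩
      refine ⟨l + k, ?_⟩
      rw [← Equiv.Perm.mul_apply, ← zpow_add, mul_add]

theorem rel_iff {g : Equiv.Perm X} {L : ℤ} {x y : X} :
    (Quotient.mk (rel g L) x = Quotient.mk (rel g L) y) ↔ ∃ k : ℤ, (g ^ (L * k)) x = y :=
  Quotient.eq

/-- the action of `g` on the quotient -/
def gb (g : Equiv.Perm X) (L : ℤ) : Equiv.Perm (Quotient (rel g L)) where
  toFun := Quotient.map' g fun x y h => by
    obtain ⟨k, hk⟩ := h
    exact ⟨k, by rw [← hk, ← Equiv.Perm.mul_apply, ← Equiv.Perm.mul_apply,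
      (Commute.self_zpow g _).eq]⟩
  invFun := Quotient.map' g.symm fun x y h => by
    obtain ⟨k, hk⟩ := h
    refine ⟨k, ?_⟩
    rw [← hk]
    change (g ^ (L * k)) (g⁻¹ x) = g⁻¹ ((g ^ (L * k)) x)
    rw [← Equiv.Perm.mul_apply, ← Equiv.Perm.mul_apply, ((Commute.refl g).inv_left.zpow_right _).eq]
  left_inv := by
    intro a
    induction a using Quotient.inductionOn with
    | _ x => simp
  right_inv := by
    intro a
    induction a using Quotient.inductionOn with
    | _ x => simp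

theorem gb_zpow (g : Equiv.Perm X) (L : ℤ) (n : ℤ) (x : X) :
    (gb g L ^ n) (Quotient.mk (rel g L) x) = Quotient.mk (rel g L) ((g ^ n) x) := by
  induction n using Int.induction_on with
  | zero => simp
  | succ n ih =>
    rw [add_comm, zpow_add, zpow_add, zpow_one, zpow_one, Equiv.Perm.mul_apply, ih,
      Equiv.Perm.mul_apply]
    rfl
  | pred n ih =>
    rw [sub_eq_neg_add, zpow_add, zpow_add, zpow_neg_one, zpow_neg_one, Equiv.Perm.mul_apply, ih,
      Equiv.Perm.mul_apply]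
    rfl

/-- a finite cyclic model of `g` near the finite set `F` -/
structure Model (g : Equiv.Perm X) (F : Finset X) where
  B : Type
  fin : Finite B
  σ : Equiv.Perm B
  rep : B → X
  e : B → ℤ
  ι : F → B
  rep_ι : ∀ x : F, rep (ι x) = x
  e_spec : ∀ b, (g ^ (e b)) (rep b) = rep (σ b)
  step : ∀ x y : F, g x = y → σ (ι x) = ι y ∧ e (ι x) = 1
  coh : ∀ (x y x' y' : F) (n : ℤ), (σ ^ n) (ι x') = ι x → (σ ^ n) (ι y') = ι y →
    ∃ m : ℤ, (g ^ m) (x' : X) = x ∧ (g ^ m) (y' : X) = y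
  cover : ∀ b, ∃ (x : F) (n : ℤ), b = (σ ^ n) (ι x)

theorem exists_model (g : Equiv.Perm X) (F : Finset X) : Nonempty (Model g F) := by
  obtain ⟨L, hL, hgood⟩ := exists_len g F
  have hgood' : ∀ x ∈ F, (∀ k : ℤ, (g ^ ((L : ℤ) * k)) x = x) ∨ ∀ y ∈ F, ∀ s : ℤ, (g ^ s) x = y →
      2 * |s| < L ∧ ∀ s' : ℤ, (g ^ s') x = y → s' = s := by
    intro x hx
    rcases hgood x hx with h | h
    · left
      intro k
      rw [zpow_mul]
      have h1 : ∀ k : ℕ, ((g ^ (L : ℤ)) ^ k) x = x := by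
        intro k
        induction k with
        | zero => simp
        | succ k ih => rw [pow_succ, Equiv.Perm.mul_apply, h, ih]
      obtain ⟨n, rfl | rfl⟩ := k.eq_nat_or_neg
      · rw [zpow_natCast]
        exact h1 n
      · rw [zpow_neg, zpow_natCast, Equiv.Perm.inv_eq_iff_eq]
        exact (h1 n).symm
    · exact Or.inr h
  have hinj : ∀ x ∈ F, ∀ y ∈ F, (∃ k : ℤ, (g ^ ((L : ℤ) * k)) x = y) → x = y := by
    rintro x hx y hy ⟨k, hk⟩
    rcases hgood' x hx with h | h
    · exact (h k).symm.trans hk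
    · obtain ⟨h1, -⟩ := h y hy _ hk
      have hk0 : k = 0 := by
        by_contra hne
        have h2 : 1 ≤ |k| := Int.one_le_abs hne
        have h3 : |(L : ℤ) * k| = L * |k| := by rw [abs_mul, Nat.abs_cast]
        have h4 : (L : ℤ) ≤ L * |k| := le_mul_of_one_le_right (by omega) h2
        omega
      rw [hk0] at hk
      simpa using hk
  let q : X → Quotient (rel g L) := Quotient.mk (rel g L)
  let Q := {b : Quotient (rel g (L : ℤ)) // ∃ x ∈ F, ∃ n : ℤ, b = q ((g ^ n) x)}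
  have hQ : ∀ b : Quotient (rel g (L : ℤ)),
      (∃ x ∈ F, ∃ n : ℤ, b = q ((g ^ n) x)) ↔ (∃ x ∈ F, ∃ n : ℤ, gb g L b = q ((g ^ n) x)) := by
    intro b
    constructor
    · rintro ⟨x, hx, n, rfl⟩
      refine ⟨x, hx, 1 + n, ?_⟩
      rw [zpow_add, zpow_one]
      rfl
    · rintro ⟨x, hx, n, h⟩
      refine ⟨x, hx, -1 + n, ?_⟩
      apply (gb g (L : ℤ)).injective
      rw [h, zpow_add, zpow_neg_one, Equiv.Perm.mul_apply]
      change q ((g ^ n) x) = q (g (g⁻¹ ((g ^ n) x)))
      rw [show g (g⁻¹ ((g ^ n) x)) = (g ^ n) x from Equiv.apply_symm_apply g _]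
  let σ : Equiv.Perm Q := (gb g (L : ℤ)).subtypePerm fun b => (hQ b).symm
  have hσ : ∀ (n : ℤ) (b : Q), (((σ ^ n) b : Q) : Quotient (rel g (L : ℤ))) = (gb g L ^ n) b := by
    intro n b
    rw [Equiv.Perm.subtypePerm_zpow]
    rfl
  let ι : F → Q := fun x => ⟨q x, x, x.2, 0, by simp⟩
  let rep : Q → X := fun b => if h : ∃ x ∈ F, q x = b then h.choose else b.1.out
  have hrep : ∀ b : Q, q (rep b) = b := by
    intro b
    by_cases h : ∃ x ∈ F, q x = b
    · simp only [rep, dif_pos h]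
      exact h.choose_spec.2
    · simp only [rep, dif_neg h]
      exact b.1.out_eq
  have hrepι : ∀ x : F, rep (ι x) = x := by
    intro x
    have h : ∃ y ∈ F, q y = (ι x : Q).1 := ⟨x, x.2, rfl⟩
    simp only [rep, dif_pos h]
    have h1 := h.choose_spec
    exact hinj _ h1.1 _ x.2 (rel_iff.1 h1.2)
  have hex : ∀ b : Q, ∃ e : ℤ, (g ^ e) (rep b) = rep (σ b) := by
    intro b
    have h1 : q (g (rep b)) = q (rep (σ b)) := by
      rw [hrep (σ b)]
      change gb g L (q (rep b)) = gb g L b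
      rw [hrep b]
    obtain ⟨k, hk⟩ := rel_iff.1 h1
    refine ⟨L * k + 1, ?_⟩
    rw [zpow_add, zpow_one, Equiv.Perm.mul_apply]
    exact hk
  let e : Q → ℤ := fun b => if g (rep b) = rep (σ b) then 1 else (hex b).choose
  refine ⟨⟨Q, ?_, σ, rep, e, ι, hrepι, ?_, ?_, ?_, ?_⟩⟩
  · -- finiteness
    have hfin : Finite (F × Fin L) := inferInstance
    refine Finite.of_surjective (α := F × Fin L)
      (fun p => ⟨q ((g ^ ((p.2 : ℕ) : ℤ)) p.1), p.1, p.1.2, _, rfl⟩) ?_
    rintro ⟨b, x, hx, n, rfl⟩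
    have hmod : (0 : ℤ) ≤ n % L := Int.emod_nonneg _ (by omega)
    have hlt : n % L < L := Int.emod_lt_of_pos _ (by omega)
    refine ⟨(⟨x, hx⟩, ⟨(n % L).toNat, by omega⟩), Subtype.ext ?_⟩
    simp only
    rw [Int.toNat_of_nonneg hmod]
    refine rel_iff.2 ⟨n / L, ?_⟩
    rw [← Equiv.Perm.mul_apply, ← zpow_add, Int.mul_ediv_add_emod]
  · intro b
    by_cases h : g (rep b) = rep (σ b)
    · simp only [e, if_pos h, zpow_one]
      exact h
    · simp only [e, if_neg h]
      exact (hex b).choose_spec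
  · intro x y hxy
    have h1 : σ (ι x) = ι y := by
      apply Subtype.ext
      change q (g x) = q y
      rw [hxy]
    refine ⟨h1, ?_⟩
    have h2 : g (rep (ι x)) = rep (σ (ι x)) := by
      rw [h1, hrepι, hrepι, hxy]
    simp only [e, if_pos h2]
  · intro x y x' y' n hx hy
    have hx1 : q ((g ^ n) x') = q x := by
      have := congrArg Subtype.val hx
      rw [hσ] at this
      rwa [gb_zpow] at this
    have hy1 : q ((g ^ n) y') = q y := by
      have := congrArg Subtype.val hy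
      rw [hσ] at this
      rwa [gb_zpow] at this
    obtain ⟨k, hk⟩ := rel_iff.1 hx1
    obtain ⟨l, hl⟩ := rel_iff.1 hy1
    rw [← Equiv.Perm.mul_apply, ← zpow_add] at hk hl
    have comm : ∀ (m : ℤ) (z : X), (g ^ ((L : ℤ) * m + n)) z = (g ^ n) ((g ^ ((L : ℤ) * m)) z) := by
      intro m z
      rw [← Equiv.Perm.mul_apply, ← zpow_add, add_comm]
    rcases hgood' x' x'.2 with h1 | h1
    · refine ⟨L * l + n, ?_, hl⟩
      rw [comm, h1 l, ← hk, comm, h1 k]
    rcases hgood' y' y'.2 with h2 | h2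
    · refine ⟨L * k + n, hk, ?_⟩
      rw [comm, h2 k, ← hl, comm, h2 l]
    · obtain ⟨h3, -⟩ := h1 x x.2 _ hk
      obtain ⟨h4, -⟩ := h2 y y.2 _ hl
      have hkl : k = l := by
        by_contra hne
        have h5 : 1 ≤ |k - l| := Int.one_le_abs (sub_ne_zero.2 hne)
        have h6 : |(L : ℤ) * (k - l)| = L * |k - l| := by rw [abs_mul, Nat.abs_cast]
        have h7 : (L : ℤ) ≤ L * |k - l| := le_mul_of_one_le_right (by omega) h5
        have h8 : (L : ℤ) * (k - l) = (L * k + n) - (L * l + n) := by ring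
        have h9 := abs_sub ((L : ℤ) * k + n) (L * l + n)
        rw [← h8] at h9
        omega
      exact ⟨L * k + n, hk, by rw [hkl]; exact hl⟩
  · rintro ⟨b, x, hx, n, rfl⟩
    refine ⟨⟨x, hx⟩, n, Subtype.ext ?_⟩
    rw [hσ]
    change q ((g ^ n) x) = (gb g L ^ n) (q x)
    rw [gb_zpow]

end Pool.Agent.Helper30K9.FJ
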