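import Pool.Agent.Helper30K9.FJ.Main

/-!
# Extensions whose kernel is a graph product: the theorem
-/

set_option autoImplicit false

namespace Pool.Agent.Helper30K9.FJ

open Pool.Agent.Y110.FJ
open Pool.Agent.Y462.SS (Closed)
open Pool.Agent.R630.FJ (MT crit)

variable {C : ∀ (G : Type) [Group G], Prop} {G V : Type} [Group G] [MulAction G V]
  {Λ : SimpleGraph V} {N : Subgroup G} {A : V → Subgroup G}

theorem C_model (hC : ClosedE C)
    (hconj : ∀ (g : G) (v : V) (x : G), x ∈ A v → g * x * g⁻¹ ∈ A (g • v))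
    (hcyc : ∀ (v : V) (g : G), g • v = v → C ↥(A v ⊔ Subgroup.zpowers g))
    {g : G} {F : Finset V} (M : Model (MulAction.toPermHom G V g) F) :
    C (MT (Sa Λ A hconj M)) := by
  have := M.fin
  have hfin : Finite (Equiv.Perm M.B) := inferInstance
  let k := orderOf M.σ
  have hk : 0 < k := orderOf_pos M.σ
  have hσk : M.σ ^ k = 1 := pow_orderOf_eq_one M.σ
  refine C_MT_pow hC.base _ hk ?_
  have h1 : ∀ b : M.B, ∃ h : G, h • M.rep b = M.rep b ∧
      ∀ (a a' : A (M.rep b)), (a' : G) = h * a * h⁻¹ →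
        (Sa Λ A hconj M ^ k) (GrP.of (mgraph Λ M) (Dm A M) b a) =
          GrP.of (mgraph Λ M) (Dm A M) b a' := by
    intro b
    obtain ⟨h, h2, h3⟩ := Sa_pow Λ A hconj M k b
    rw [hσk, Equiv.Perm.one_apply] at h2
    refine ⟨h, h2, fun a a' ha => ?_⟩
    have e : b = (M.σ ^ k) b := by rw [hσk, Equiv.Perm.one_apply]
    have ha' : (a' : G) ∈ A (M.rep ((M.σ ^ k) b)) := by rw [← e]; exact a'.2
    rw [h3 a ⟨a', ha'⟩ ha]
    exact of_eq e.symm rfl
  choose h h2 h3 using h1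
  let τv : ∀ b : M.B, MulAut (A (M.rep b)) := fun b =>
    MonoidHom.toMulEquiv (cj A hconj (h b) (h2 b))
      (cj A hconj (h b)⁻¹ (inv_smul_eq_iff.2 (h2 b).symm))
      (by
        ext a
        show (h b)⁻¹ * (h b * a * (h b)⁻¹) * ((h b)⁻¹)⁻¹ = a
        group)
      (by
        ext a
        show (h b) * ((h b)⁻¹ * a * ((h b)⁻¹)⁻¹) * (h b)⁻¹ = a
        group)
  refine C_MT_fix (τv := τv) hC (fun b a => h3 b a (τv b a) rfl) fun b => ?_
  exact C_conj hC.base (h := h b) (τv b) (fun a => rfl) (hcyc _ _ (h2 b))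

theorem MT_conj {P : Type} [Group P] (σ : MulAut P) (x : P) :
    (SemidirectProduct.inl (σ x) : MT σ) =
      (SemidirectProduct.inr (Multiplicative.ofAdd (1 : ℤ)) : MT σ) * SemidirectProduct.inl x *
        (SemidirectProduct.inr (Multiplicative.ofAdd (1 : ℤ)) : MT σ)⁻¹ := by
  have h3 := SemidirectProduct.inl_aut (φ := zpowersHom (MulAut P) σ)
    (Multiplicative.ofAdd (1 : ℤ)) x
  rw [zpowersHom_apply, toAdd_ofAdd, zpow_one, map_inv] at h3
  exact h3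

theorem main (hC : ClosedE C) [N.Normal] (hQ : C (G ⧸ N)) (hA : IsGraphProduct Λ N A)
    (hadj : ∀ (g : G) (v w : V), Λ.Adj v w → Λ.Adj (g • v) (g • w))
    (hconj : ∀ (g : G) (v : V) (x : G), x ∈ A v → g * x * g⁻¹ ∈ A (g • v))
    (hcyc : ∀ (v : V) (g : G), g • v = v → C ↥(A v ⊔ Subgroup.zpowers g)) : C G := by
  classical
  refine crit C hC G N hQ fun g E hE hEN => ?_
  have hAN : ∀ v, A v ≤ N := fun v => hA.sup ▸ le_iSup A v
  obtain ⟨F0, hF0⟩ := exists_fin A hE (by rw [hA.sup]; exact hEN)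
  obtain ⟨F, hF⟩ : ∃ F : Finset V, F = F0 ∪ F0.image (fun v => g • v) := ⟨_, rfl⟩
  have hF1 : ∀ v ∈ F0, v ∈ F := fun v hv => by rw [hF]; exact Finset.mem_union_left _ hv
  have hF2 : ∀ v ∈ F0, g • v ∈ F := fun v hv => by
    rw [hF]; exact Finset.mem_union_right _ (Finset.mem_image_of_mem _ hv)
  obtain ⟨M⟩ := exists_model (MulAction.toPermHom G V g) F
  have hadj' : ∀ x y : F, (mgraph Λ M).Adj (M.ι x) (M.ι y) ↔ Λ.Adj (x : V) y := by
    intro x y
    constructor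
    · rintro ⟨x', y', n, h1, h2, h3⟩
      obtain ⟨m, h4, h5⟩ := M.coh x y x' y' n h1.symm h2.symm
      rw [← map_zpow] at h4 h5
      have h6 := hadj (g ^ m) _ _ h3
      have h7 : g ^ m • (x' : V) = x := h4
      have h8 : g ^ m • (y' : V) = y := h5
      rwa [h7, h8] at h6
    · intro h
      exact ⟨x, y, 0, by simp, by simp, h⟩
  -- the homomorphism to the model
  let k : ∀ v, A v →* GrP (mgraph Λ M) (Dm A M) := fun v =>
    if hv : v ∈ F then (GrP.of (mgraph Λ M) (Dm A M) (M.ι ⟨v, hv⟩)).comp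
      (Subgroup.inclusion (by rw [M.rep_ι]))
    else 1
  have kF : ∀ v (hv : v ∈ F) (a : G) (ha : a ∈ A v), k v ⟨a, ha⟩ =
      GrP.of (mgraph Λ M) (Dm A M) (M.ι ⟨v, hv⟩) ⟨a, by rw [M.rep_ι]; exact ha⟩ := by
    intro v hv a ha
    simp only [k, dif_pos hv]
    rfl
  have k0 : ∀ v, v ∉ F → ∀ a, k v a = 1 := by
    intro v hv a
    simp only [k, dif_neg hv]
    rfl
  obtain ⟨r, hr⟩ := hA.univ _ k (by
    rintro v w h ⟨a, ha⟩ ⟨b, hb⟩
    by_cases hv : v ∈ F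
    · by_cases hw : w ∈ F
      · rw [kF v hv, kF w hw]
        exact of_comm ((hadj' ⟨v, hv⟩ ⟨w, hw⟩).2 h) _ _
      · rw [k0 w hw, mul_one, one_mul]
    · rw [k0 v hv, mul_one, one_mul])
  -- the left inverse
  let l : GrP (mgraph Λ M) (Dm A M) →* G := glift _ _ (fun b =>
    if b ∈ Set.range M.ι then (A (M.rep b)).subtype else 1) (by
      intro b b' a a' h
      by_cases hb : b ∈ Set.range M.ι
      · by_cases hb' : b' ∈ Set.range M.ι
        · rw [if_pos hb, if_pos hb']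
          obtain ⟨x, rfl⟩ := hb
          obtain ⟨y, rfl⟩ := hb'
          have h1 := (hadj' x y).1 h
          have ex : A (M.rep (M.ι x)) ≤ A (x : V) := by rw [M.rep_ι]
          have ey : A (M.rep (M.ι y)) ≤ A (y : V) := by rw [M.rep_ι]
          exact hA.comm x y h1 _ (ex a.2) _ (ey a'.2)
        · rw [if_neg hb', MonoidHom.one_apply, mul_one, one_mul]
      · rw [if_neg hb, MonoidHom.one_apply, mul_one, one_mul])
  have hl : ∀ (v : V) (hv : v ∈ F) (a : G) (ha : a ∈ A v), l (r ⟨a, hAN v ha⟩) = a := by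
    intro v hv a ha
    rw [hr v a ha, kF v hv]
    simp only [l]
    rw [glift_of, if_pos ⟨⟨v, hv⟩, rfl⟩]
    rfl
  have hcl : Subgroup.closure (E ∪ (fun x => g * x * g⁻¹) '' E) ≤ ⨆ v ∈ F, A v := by
    rw [Subgroup.closure_le]
    have h1 : (⨆ v ∈ F0, A v) ≤ ⨆ v ∈ F, A v := biSup_mono fun v hv => hF1 v hv
    have h2 : (⨆ v ∈ F0, A v) ≤ (⨆ v ∈ F, A v).comap (MulAut.conj g).toMonoidHom := by
      refine iSup₂_le fun v hv x hx => ?_
      exact Subgroup.mem_iSup_of_mem (g • v) (Subgroup.mem_iSup_of_mem (hF2 v hv) (hconj g v x hx))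
    rintro y (hy | ⟨z, hz, rfl⟩)
    · exact h1 (hF0 hy)
    · exact h2 (hF0 hz)
  have hleF : (⨆ v ∈ F, A v) ≤ N := iSup₂_le fun v _ => hAN v
  have hle : Subgroup.closure (E ∪ (fun x => g * x * g⁻¹) '' E) ≤ N := hcl.trans hleF
  have hlr : ∀ x (hx : x ∈ (⨆ v ∈ F, A v : Subgroup G)), l (r ⟨x, hleF hx⟩) = x := by
    have h1 : (⨆ v ∈ F, A v : Subgroup G) ≤ ((l.comp r).eqLocus N.subtype).map N.subtype := by
      refine iSup₂_le fun v hv x hx => ?_
      exact ⟨⟨x, hAN v hx⟩, hl v hv x hx, rfl⟩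
    intro x hx
    obtain ⟨y, hy, hyx⟩ := h1 hx
    have h2 : y = ⟨x, hleF hx⟩ := Subtype.ext hyx
    rw [← h2]
    exact hy.trans hyx
  -- the realization
  have hstep : ∀ x (hx : x ∈ (⨆ v ∈ F0, A v : Subgroup G)) (hxN : x ∈ N) (hgN : g * x * g⁻¹ ∈ N),
      r ⟨g * x * g⁻¹, hgN⟩ = Sa Λ A hconj M (r ⟨x, hxN⟩) := by
    have h1 : (⨆ v ∈ F0, A v : Subgroup G) ≤ ((r.comp (MulAut.conjNormal g : MulAut N).toMonoidHom).eqLocus
        ((Sa Λ A hconj M).toMonoidHom.comp r)).map N.subtype := by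
      refine iSup₂_le fun v hv x hx => ?_
      refine ⟨⟨x, hAN v hx⟩, ?_, rfl⟩
      show r (MulAut.conjNormal g ⟨x, hAN v hx⟩) = Sa Λ A hconj M (r ⟨x, hAN v hx⟩)
      have h2 : (MulAut.conjNormal g ⟨x, hAN v hx⟩ : N) =
          ⟨g * x * g⁻¹, hAN (g • v) (hconj g v x hx)⟩ := rfl
      rw [h2, hr (g • v) _ (hconj g v x hx), kF (g • v) (hF2 v hv), hr v x hx, kF v (hF1 v hv), Sa_of]
      obtain ⟨h3, h4⟩ := M.step ⟨v, hF1 v hv⟩ ⟨g • v, hF2 v hv⟩ rfl
      refine of_eq h3.symm ?_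
      show g * x * g⁻¹ = g ^ (M.e (M.ι ⟨v, hF1 v hv⟩)) * x * (g ^ (M.e (M.ι ⟨v, hF1 v hv⟩)))⁻¹
      rw [h4, zpow_one]
    intro x hx hxN hgN
    obtain ⟨y, hy, hyx⟩ := h1 hx
    have h2 : y = ⟨x, hxN⟩ := Subtype.ext hyx
    rw [h2] at hy
    exact hy
  refine ⟨MT (Sa Λ A hconj M), inferInstance,
    (SemidirectProduct.inl).comp (r.comp (Subgroup.inclusion hle)),
    SemidirectProduct.inr (Multiplicative.ofAdd (1 : ℤ)), C_model hC hconj hcyc M, ?_, ?_⟩
  · refine SemidirectProduct.inl_injective.comp ?_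
    intro x y hxy
    have h1 : l (r ⟨x, hleF (hcl x.2)⟩) = l (r ⟨y, hleF (hcl y.2)⟩) := congrArg l hxy
    rw [hlr _ (hcl x.2), hlr _ (hcl y.2)] at h1
    exact Subtype.ext h1
  · rintro ⟨x, hx⟩ ⟨y, hy⟩ hxE hyx
    have hyx' : y = g * x * g⁻¹ := hyx
    subst hyx'
    have h2 := hstep x (hF0 hxE) (hle hx) (hle hy)
    have h3 := MT_conj (Sa Λ A hconj M) (r ⟨x, hle hx⟩)
    rw [← h2] at h3
    exact h3

end Pool.Agent.Helper30K9.FJ
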