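import Pool.Agent.R630.FJ.Inn
import Pool.Agent.Y417.FJ.Am

/-!
# Graph products and their mapping tori
-/

set_option autoImplicit false

namespace Pool.Agent.Helper30K9.FJ

open Pool.Agent.Y110.FJ
open Pool.Agent.Y462.SS (Closed)
open Pool.Agent.R630.FJ (MT)

section gp

variable {V : Type} (Λ : SimpleGraph V) (D : V → Type) [∀ v, Group (D v)] {H : Type} [Group H]

/-- the homomorphism from a graph product given by homomorphisms from the vertex groups -/
def glift (f : ∀ v, D v →* H) (hf : ∀ v w a b, Λ.Adj v w → f v a * f w b = f w b * f v a) :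
    GrP Λ D →* H :=
  QuotientGroup.lift _ (Monoid.CoprodI.lift f) (by
    intro x hx
    have h1 : Subgroup.normalClosure (commRel Λ D) ≤ (Monoid.CoprodI.lift f).ker := by
      refine Subgroup.normalClosure_le_normal ?_
      rintro _ ⟨v, w, a, b, hvw, rfl⟩
      rw [SetLike.mem_coe, MonoidHom.mem_ker, map_mul, map_mul, map_mul, map_inv, map_inv,
        Monoid.CoprodI.lift_of, Monoid.CoprodI.lift_of, hf v w a b hvw]
      group
    exact h1 hx)

theorem glift_of (f : ∀ v, D v →* H) (hf : ∀ v w a b, Λ.Adj v w → f v a * f w b = f w b * f v a)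
    (v : V) (a : D v) : glift Λ D f hf (GrP.of Λ D v a) = f v a := by
  show QuotientGroup.lift _ (Monoid.CoprodI.lift f) _ (QuotientGroup.mk' _ (Monoid.CoprodI.of a)) = _
  rw [QuotientGroup.mk'_apply, QuotientGroup.lift_mk, Monoid.CoprodI.lift_of]

variable {Λ D}

theorem ghom_ext {f g : GrP Λ D →* H} (h : ∀ v a, f (GrP.of Λ D v a) = g (GrP.of Λ D v a)) :
    f = g := by
  apply QuotientGroup.monoidHom_ext
  apply Monoid.CoprodI.ext_hom
  intro v
  ext a
  exact h v a

theorem of_comm {v w : V} (h : Λ.Adj v w) (a : D v) (b : D w) :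
    GrP.of Λ D v a * GrP.of Λ D w b = GrP.of Λ D w b * GrP.of Λ D v a := by
  have h1 : GrP.of Λ D v a * GrP.of Λ D w b * (GrP.of Λ D v a)⁻¹ * (GrP.of Λ D w b)⁻¹ = 1 := by
    show (QuotientGroup.mk' _ (Monoid.CoprodI.of a * Monoid.CoprodI.of b *
      (Monoid.CoprodI.of a)⁻¹ * (Monoid.CoprodI.of b)⁻¹) : GrP Λ D) = 1
    rw [QuotientGroup.mk'_apply, QuotientGroup.eq_one_iff]
    exact Subgroup.subset_normalClosure ⟨v, w, a, b, h, rfl⟩
  have h2 := mul_eq_one_iff_eq_inv.1 h1
  rw [inv_inv, mul_inv_eq_iff_eq_mul] at h2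
  exact h2

open Classical in
/-- the retraction to the part over `T` -/
noncomputable def ret (Λ : SimpleGraph V) (D : V → Type) [∀ v, Group (D v)] (T : Set V) :
    GrP Λ D →* GrP Λ D :=
  glift Λ D (fun v => if v ∈ T then GrP.of Λ D v else 1) (by
    intro v w a b h
    by_cases hv : v ∈ T <;> by_cases hw : w ∈ T <;> simp [hv, hw, of_comm h])

theorem ret_mem {T : Set V} {v : V} (hv : v ∈ T) (a : D v) :
    ret Λ D T (GrP.of Λ D v a) = GrP.of Λ D v a := by
  rw [ret, glift_of, if_pos hv]

theorem ret_not {T : Set V} {v : V} (hv : v ∉ T) (a : D v) :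
    ret Λ D T (GrP.of Λ D v a) = 1 := by
  rw [ret, glift_of, if_neg hv]
  rfl

/-- the part over `T` -/
def para (Λ : SimpleGraph V) (D : V → Type) [∀ v, Group (D v)] (T : Set V) : Subgroup (GrP Λ D) :=
  ⨆ v : T, (GrP.of Λ D v).range

theorem of_mem_para {T : Set V} {v : V} (hv : v ∈ T) (a : D v) : GrP.of Λ D v a ∈ para Λ D T :=
  Subgroup.mem_iSup_of_mem (⟨v, hv⟩ : T) ⟨a, rfl⟩

theorem para_le {T : Set V} {K : Subgroup (GrP Λ D)} (h : ∀ v ∈ T, ∀ a, GrP.of Λ D v a ∈ K) :
    para Λ D T ≤ K := by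
  refine iSup_le ?_
  rintro ⟨v, hv⟩ _ ⟨a, rfl⟩
  exact h v hv a

theorem ret_range (T : Set V) (y : GrP Λ D) : ret Λ D T y ∈ para Λ D T := by
  have h1 : (⊤ : Subgroup (GrP Λ D)) ≤ (para Λ D T).comap (ret Λ D T) := by
    have h2 : para Λ D Set.univ = ⊤ := by
      rw [eq_top_iff]
      have h3 : ((para Λ D Set.univ).subtype.comp
          (glift Λ D (fun v => (GrP.of Λ D v).codRestrict (para Λ D Set.univ)
            fun a => of_mem_para (Set.mem_univ v) a) (by
              intro v w a b h
              apply Subtype.ext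
              exact of_comm h a b))) = MonoidHom.id _ := by
        apply ghom_ext
        intro v a
        rw [MonoidHom.comp_apply, glift_of]
        rfl
      intro x _
      have := DFunLike.congr_fun h3 x
      rw [MonoidHom.comp_apply, MonoidHom.id_apply] at this
      rw [← this]
      exact Subtype.property _
    rw [← h2]
    refine para_le fun v _ a => ?_
    rw [Subgroup.mem_comap]
    by_cases hv : v ∈ T
    · rw [ret_mem hv]
      exact of_mem_para hv a
    · rw [ret_not hv]
      exact Subgroup.one_mem _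
  exact h1 (Subgroup.mem_top y)

theorem ret_fix {T : Set V} {y : GrP Λ D} (hy : y ∈ para Λ D T) : ret Λ D T y = y := by
  have h1 : para Λ D T ≤ (ret Λ D T).eqLocus (MonoidHom.id _) := by
    refine para_le fun v hv a => ?_
    exact ret_mem hv a
  exact h1 hy

theorem para_univ : para Λ D Set.univ = ⊤ := by
  rw [eq_top_iff]
  intro x _
  have h1 : ret Λ D Set.univ = MonoidHom.id _ := by
    apply ghom_ext
    intro v a
    exact ret_mem (Set.mem_univ v) a
  have h2 := ret_range (Λ := Λ) (D := D) Set.univ x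
  rwa [h1] at h2

theorem para_mono {S T : Set V} (h : S ⊆ T) : para Λ D S ≤ para Λ D T :=
  para_le fun _ hv a => of_mem_para (h hv) a

end gp

end Pool.Agent.Helper30K9.FJ
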