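import Pool.Agent.Helper30K9.FJ.TorD
import Pool.Agent.Helper30K9.FJ.Cyc

/-!
# Extensions whose kernel is a graph product
-/

set_option autoImplicit false

namespace Pool.Agent.Helper30K9.FJ

open Pool.Agent.Y110.FJ
open Pool.Agent.Y462.SS (Closed)
open Pool.Agent.R630.FJ (MT crit)

/-- `N` is the graph product of its subgroups `A v` with respect to the graph `Λ` -/
structure IsGraphProduct {G V : Type} [Group G] (Λ : SimpleGraph V) (N : Subgroup G)
    (A : V → Subgroup G) : Prop where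
  sup : ⨆ v, A v = N
  comm : ∀ v w, Λ.Adj v w → ∀ a ∈ A v, ∀ b ∈ A w, a * b = b * a
  univ : ∀ (H : Type) [Group H] (f : ∀ v, A v →* H),
    (∀ v w, Λ.Adj v w → ∀ (a : A v) (b : A w), f v a * f w b = f w b * f v a) →
    ∃ h : N →* H, ∀ (v : V) (a : G) (ha : a ∈ A v) (haN : a ∈ N), h ⟨a, haN⟩ = f v ⟨a, ha⟩

section main

variable {G V : Type} [Group G] [MulAction G V] {Λ : SimpleGraph V} {N : Subgroup G}
  {A : V → Subgroup G}

theorem exists_fin (A : V → Subgroup G) {E : Set G} (hE : E.Finite)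
    (h : E ⊆ ((⨆ v, A v : Subgroup G) : Set G)) :
    ∃ F : Finset V, E ⊆ ((⨆ v ∈ F, A v : Subgroup G) : Set G) := by
  classical
  have h1 : ∀ x ∈ (⨆ v, A v : Subgroup G), ∃ F : Finset V, x ∈ (⨆ v ∈ F, A v : Subgroup G) := by
    intro x hx
    rw [iSup_eq_iSup_finset, Subgroup.mem_iSup_of_directed] at hx
    · exact hx
    · intro s t
      exact ⟨s ∪ t, biSup_mono fun v hv => Finset.mem_union_left _ hv,
        biSup_mono fun v hv => Finset.mem_union_right _ hv⟩
  induction E, hE using Set.Finite.induction_on with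
  | empty => exact ⟨∅, Set.empty_subset _⟩
  | @insert x E _ _ ih =>
    obtain ⟨F, hF⟩ := ih fun y hy => h (Set.mem_insert_of_mem _ hy)
    obtain ⟨F', hF'⟩ := h1 x (h (Set.mem_insert _ _))
    refine ⟨F ∪ F', Set.insert_subset ?_ ?_⟩
    · exact (biSup_mono (f := A) fun v hv => Finset.mem_union_right F hv :
        (⨆ v ∈ F', A v) ≤ ⨆ v ∈ F ∪ F', A v) hF'
    · exact hF.trans (biSup_mono (f := A) fun v hv => Finset.mem_union_left F' hv :
        (⨆ v ∈ F, A v) ≤ ⨆ v ∈ F ∪ F', A v)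

/-- conjugation as an isomorphism between factors -/
def cj (A : V → Subgroup G) (hconj : ∀ (g : G) (v : V) (x : G), x ∈ A v → g * x * g⁻¹ ∈ A (g • v))
    (g : G) {v w : V} (h : g • v = w) : A v →* A w where
  toFun x := ⟨g * x * g⁻¹, h ▸ hconj g v x x.2⟩
  map_one' := by simp
  map_mul' x y := by
    apply Subtype.ext
    simp

theorem of_eq {B : Type} {Λ' : SimpleGraph B} {rep : B → V} {b b' : B} (h : b = b')
    {a : A (rep b)} {a' : A (rep b')} (ha : (a : G) = a') :
    GrP.of Λ' (fun b => A (rep b)) b a = GrP.of Λ' (fun b => A (rep b)) b' a' := by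
  subst h
  rw [Subtype.ext ha]

/-- the graph of a model -/
def mgraph (Λ : SimpleGraph V) {π : Equiv.Perm V} {F : Finset V} (M : Model π F) :
    SimpleGraph M.B where
  Adj b b' := ∃ (x y : F) (n : ℤ), b = (M.σ ^ n) (M.ι x) ∧ b' = (M.σ ^ n) (M.ι y) ∧
    Λ.Adj (x : V) y
  symm := ⟨fun b b' ⟨x, y, n, h1, h2, h3⟩ => ⟨y, x, n, h2, h1, h3.symm⟩⟩
  loopless := ⟨fun b ⟨x, y, n, h1, h2, h3⟩ => by
    have h4 : M.ι x = M.ι y := (M.σ ^ n).injective (h1.symm.trans h2)
    have h5 : (x : V) = y := by rw [← M.rep_ι x, h4, M.rep_ι y]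
    exact h3.ne h5⟩

theorem mgraph_σ (Λ : SimpleGraph V) {π : Equiv.Perm V} {F : Finset V} (M : Model π F) (k : ℤ)
    {b b' : M.B} (h : (mgraph Λ M).Adj b b') : (mgraph Λ M).Adj ((M.σ ^ k) b) ((M.σ ^ k) b') := by
  obtain ⟨x, y, n, rfl, rfl, h3⟩ := h
  refine ⟨x, y, k + n, ?_, ?_, h3⟩
  · rw [zpow_add, Equiv.Perm.mul_apply]
  · rw [zpow_add, Equiv.Perm.mul_apply]

end main

section perm

variable {G V : Type} [Group G] [MulAction G V] (Λ : SimpleGraph V)
  (A : V → Subgroup G)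
  (hconj : ∀ (g : G) (v : V) (x : G), x ∈ A v → g * x * g⁻¹ ∈ A (g • v))
  {g : G} {F : Finset V} (M : Model (MulAction.toPermHom G V g) F)

theorem smul_rep (b : M.B) : g ^ (M.e b) • M.rep b = M.rep (M.σ b) := by
  have h := M.e_spec b
  rw [← map_zpow] at h
  exact h

/-- the vertex groups -/
abbrev Dm : M.B → Type := fun b => A (M.rep b)

/-- the automorphism of the model, as a homomorphism -/
noncomputable def Sg : GrP (mgraph Λ M) (Dm A M) →* GrP (mgraph Λ M) (Dm A M) :=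
  glift _ _ (fun b => (GrP.of (mgraph Λ M) (Dm A M) (M.σ b)).comp
    (cj A hconj (g ^ (M.e b)) (smul_rep M b))) (by
      intro b b' x y h
      exact of_comm (by simpa using mgraph_σ Λ M 1 h) _ _)

theorem smul_rep' (b : M.B) : g ^ (-(M.e (M.σ.symm b))) • M.rep b = M.rep (M.σ.symm b) := by
  have h := smul_rep M (M.σ.symm b)
  rw [Equiv.apply_symm_apply] at h
  rw [← h, ← mul_smul, ← zpow_add, neg_add_cancel, zpow_zero, one_smul]

/-- its inverse -/
noncomputable def Sg' : GrP (mgraph Λ M) (Dm A M) →* GrP (mgraph Λ M) (Dm A M) :=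
  glift _ _ (fun b => (GrP.of (mgraph Λ M) (Dm A M) (M.σ.symm b)).comp
    (cj A hconj (g ^ (-(M.e (M.σ.symm b)))) (smul_rep' M b))) (by
      intro b b' x y h
      refine of_comm ?_ _ _
      have h1 := mgraph_σ Λ M (-1) h
      rw [zpow_neg_one] at h1
      exact h1)

theorem Sg_of (b : M.B) (a : A (M.rep b)) : Sg Λ A hconj M (GrP.of (mgraph Λ M) (Dm A M) b a) =
    GrP.of (mgraph Λ M) (Dm A M) (M.σ b) (cj A hconj (g ^ (M.e b)) (smul_rep M b) a) :=
  glift_of _ _ _ _ _ _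

theorem Sg'_of (b : M.B) (a : A (M.rep b)) : Sg' Λ A hconj M (GrP.of (mgraph Λ M) (Dm A M) b a) =
    GrP.of (mgraph Λ M) (Dm A M) (M.σ.symm b)
      (cj A hconj (g ^ (-(M.e (M.σ.symm b)))) (smul_rep' M b) a) :=
  glift_of _ _ _ _ _ _

/-- the automorphism of the model -/
noncomputable def Sa : MulAut (GrP (mgraph Λ M) (Dm A M)) :=
  MonoidHom.toMulEquiv (Sg Λ A hconj M) (Sg' Λ A hconj M)
    (by
      apply ghom_ext
      intro b a
      rw [MonoidHom.comp_apply, Sg_of, Sg'_of, MonoidHom.id_apply]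
      refine of_eq (M.σ.symm_apply_apply b) ?_
      show g ^ (-(M.e (M.σ.symm (M.σ b)))) * (g ^ (M.e b) * a * (g ^ (M.e b))⁻¹) *
        (g ^ (-(M.e (M.σ.symm (M.σ b)))))⁻¹ = a
      rw [M.σ.symm_apply_apply, zpow_neg]
      group)
    (by
      apply ghom_ext
      intro b a
      rw [MonoidHom.comp_apply, Sg'_of, Sg_of, MonoidHom.id_apply]
      refine of_eq (M.σ.apply_symm_apply b) ?_
      show g ^ (M.e (M.σ.symm b)) * (g ^ (-(M.e (M.σ.symm b))) * a * (g ^ (-(M.e (M.σ.symm b))))⁻¹) *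
        (g ^ (M.e (M.σ.symm b)))⁻¹ = a
      rw [zpow_neg]
      group)

theorem Sa_of (b : M.B) (a : A (M.rep b)) : Sa Λ A hconj M (GrP.of (mgraph Λ M) (Dm A M) b a) =
    GrP.of (mgraph Λ M) (Dm A M) (M.σ b) (cj A hconj (g ^ (M.e b)) (smul_rep M b) a) :=
  Sg_of Λ A hconj M b a

theorem Sa_pow (n : ℕ) (b : M.B) : ∃ h : G, h • M.rep b = M.rep ((M.σ ^ n) b) ∧
    ∀ (a : A (M.rep b)) (a' : A (M.rep ((M.σ ^ n) b))), (a' : G) = h * a * h⁻¹ →
      (Sa Λ A hconj M ^ n) (GrP.of (mgraph Λ M) (Dm A M) b a) =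
        GrP.of (mgraph Λ M) (Dm A M) ((M.σ ^ n) b) a' := by
  induction n with
  | zero =>
    refine ⟨1, by simp, fun a a' h => ?_⟩
    rw [pow_zero, MulAut.one_apply]
    exact of_eq rfl (by rw [h]; simp)
  | succ n ih =>
    obtain ⟨h, h1, h2⟩ := ih
    have e1 : (M.σ ^ (n + 1)) b = M.σ ((M.σ ^ n) b) := by rw [pow_succ', Equiv.Perm.mul_apply]
    refine ⟨g ^ (M.e ((M.σ ^ n) b)) * h, ?_, fun a a' ha => ?_⟩
    · rw [mul_smul, h1, smul_rep, e1]
    · have h3 := h2 a (cj A hconj h h1 a) rfl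
      rw [pow_succ', MulAut.mul_apply, h3, Sa_of]
      refine of_eq e1.symm ?_
      rw [ha]
      show g ^ (M.e ((M.σ ^ n) b)) * (h * a * h⁻¹) * (g ^ (M.e ((M.σ ^ n) b)))⁻¹ = _
      group

end perm

section member

variable {G : Type} [Group G] {C : ∀ (G : Type) [Group G], Prop}

/-- mapping tori of conjugations inside `G` -/
theorem C_conj (hC : Closed C) {B : Subgroup G} {h : G} (τ : MulAut B)
    (hτ : ∀ a : B, ((τ a : B) : G) = h * a * h⁻¹) (hB : C ↥(B ⊔ Subgroup.zpowers h)) :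
    C (MT τ) := by
  let K : Subgroup G := B ⊔ Subgroup.zpowers h
  have hh : h ∈ K := Subgroup.mem_sup_right (Subgroup.mem_zpowers h)
  have hBK : B ≤ K := le_sup_left
  let f1 : B →* K := Subgroup.inclusion hBK
  let f2 : Multiplicative ℤ →* K := zpowersHom K ⟨h, hh⟩
  have hpow : ∀ (n : ℤ) (a : B), (((τ ^ n) a : B) : G) = h ^ n * a * (h ^ n)⁻¹ := by
    intro n
    induction n using Int.induction_on with
    | zero => intro a; simp
    | succ n ih =>
      intro a
      rw [zpow_add, zpow_one, MulAut.mul_apply, ih, hτ, zpow_add, zpow_one]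
      group
    | pred n ih =>
      intro a
      have hinv : ∀ a : B, (((τ⁻¹) a : B) : G) = h⁻¹ * a * h := by
        intro a
        have h1 := hτ (τ⁻¹ a)
        rw [show τ (τ⁻¹ a) = a from MulEquiv.apply_symm_apply τ a] at h1
        rw [h1]
        group
      rw [sub_eq_add_neg, zpow_add, zpow_neg_one, MulAut.mul_apply, ih, hinv, zpow_add,
        zpow_neg_one]
      group
  have hcompat : ∀ n, f1.comp (zpowersHom (MulAut B) τ n).toMonoidHom =
      (MulAut.conj (f2 n)).toMonoidHom.comp f1 := by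
    intro n
    apply MonoidHom.ext
    intro a
    apply Subtype.ext
    show (((zpowersHom (MulAut B) τ n) a : B) : G) = ((f2 n * f1 a * (f2 n)⁻¹ : K) : G)
    rw [zpowersHom_apply, hpow]
    rfl
  let F : MT τ →* K × Multiplicative ℤ :=
    (SemidirectProduct.lift f1 f2 hcompat).prod SemidirectProduct.rightHom
  refine hC.of_injective _ _ F ?_ (hC.prod _ _ hB hC.int)
  rw [injective_iff_map_eq_one]
  intro x hx
  have h1 : x.right = 1 := congrArg Prod.snd hx
  have h2 : SemidirectProduct.lift f1 f2 hcompat x = 1 := congrArg Prod.fst hx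
  rw [← SemidirectProduct.inl_left_mul_inr_right x, h1, map_one, mul_one,
    SemidirectProduct.lift_inl] at h2
  have h3 : x.left = 1 := (Subgroup.inclusion_injective hBK) (h2.trans (map_one f1).symm)
  exact SemidirectProduct.ext h3 h1

end member

end Pool.Agent.Helper30K9.FJ
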