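import Pool.Agent.Helper30K9.FJ.GP

/-!
# Mapping tori of automorphisms of graph products which preserve the vertex groups
-/

set_option autoImplicit false

namespace Pool.Agent.Helper30K9.FJ

open Pool.Agent.Y110.FJ
open Pool.Agent.Y462.SS (Closed)
open Pool.Agent.R630.FJ (MT)

theorem s_am : S_AM := Pool.Agent.Y417.FJ.t_am (Pool.Agent.Y961.FJ.t_perm Pool.Agent.Y529.FJ.t_ext)

section tor

variable {V : Type} {Λ : SimpleGraph V} {D : V → Type} [∀ v, Group (D v)]
  {τ : MulAut (GrP Λ D)} {τv : ∀ v, MulAut (D v)}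

theorem zpow_of (hτ : ∀ v a, τ (GrP.of Λ D v a) = GrP.of Λ D v (τv v a)) (n : ℤ) (v : V) (a : D v) :
    (τ ^ n) (GrP.of Λ D v a) = GrP.of Λ D v ((τv v ^ n) a) := by
  have hinv : ∀ a : D v, τ⁻¹ (GrP.of Λ D v a) = GrP.of Λ D v ((τv v)⁻¹ a) := by
    intro a
    rw [MulAut.inv_apply, MulEquiv.symm_apply_eq, hτ, MulAut.inv_apply, MulEquiv.apply_symm_apply]
  induction n using Int.induction_on generalizing a with
  | zero => simp
  | succ n ih => rw [zpow_add, zpow_one, MulAut.mul_apply, hτ, ih, zpow_add, zpow_one, MulAut.mul_apply]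
  | pred n ih =>
    rw [sub_eq_add_neg, zpow_add, zpow_neg_one, MulAut.mul_apply, hinv, ih, zpow_add, zpow_neg_one,
      MulAut.mul_apply]

theorem phi_of (hτ : ∀ v a, τ (GrP.of Λ D v a) = GrP.of Λ D v (τv v a)) (n : Multiplicative ℤ)
    (v : V) (a : D v) : zpowersHom (MulAut (GrP Λ D)) τ n (GrP.of Λ D v a) =
      GrP.of Λ D v (zpowersHom (MulAut (D v)) (τv v) n a) := by
  rw [zpowersHom_apply, zpowersHom_apply]
  exact zpow_of hτ _ v a

theorem ret_phi (hτ : ∀ v a, τ (GrP.of Λ D v a) = GrP.of Λ D v (τv v a)) (T : Set V)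
    (n : Multiplicative ℤ) (y : GrP Λ D) :
    ret Λ D T (zpowersHom (MulAut (GrP Λ D)) τ n y) =
      zpowersHom (MulAut (GrP Λ D)) τ n (ret Λ D T y) := by
  have h : (ret Λ D T).comp (zpowersHom (MulAut (GrP Λ D)) τ n).toMonoidHom =
      (zpowersHom (MulAut (GrP Λ D)) τ n).toMonoidHom.comp (ret Λ D T) := by
    apply ghom_ext
    intro v a
    show ret Λ D T (zpowersHom (MulAut (GrP Λ D)) τ n (GrP.of Λ D v a)) =
      zpowersHom (MulAut (GrP Λ D)) τ n (ret Λ D T (GrP.of Λ D v a))
    rw [phi_of hτ]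
    by_cases hv : v ∈ T
    · rw [ret_mem hv, ret_mem hv, phi_of hτ]
    · rw [ret_not hv, ret_not hv, map_one]
  exact DFunLike.congr_fun h y

theorem phi_para (hτ : ∀ v a, τ (GrP.of Λ D v a) = GrP.of Λ D v (τv v a)) {T : Set V}
    (n : Multiplicative ℤ) {y : GrP Λ D} (hy : y ∈ para Λ D T) :
    zpowersHom (MulAut (GrP Λ D)) τ n y ∈ para Λ D T := by
  rw [← ret_fix hy, ← ret_phi hτ]
  exact ret_range T _

/-- the part of the mapping torus over `T` -/
def PT (hτ : ∀ v a, τ (GrP.of Λ D v a) = GrP.of Λ D v (τv v a)) (T : Set V) : Subgroup (MT τ) where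
  carrier := {x | x.left ∈ para Λ D T}
  one_mem' := (para Λ D T).one_mem
  mul_mem' := by
    intro x y hx hy
    exact (para Λ D T).mul_mem hx (phi_para hτ _ hy)
  inv_mem' := by
    intro x hx
    exact phi_para hτ _ ((para Λ D T).inv_mem hx)

theorem mem_PT (hτ : ∀ v a, τ (GrP.of Λ D v a) = GrP.of Λ D v (τv v a)) {T : Set V} {x : MT τ} :
    x ∈ PT hτ T ↔ x.left ∈ para Λ D T := Iff.rfl

theorem PT_mono (hτ : ∀ v a, τ (GrP.of Λ D v a) = GrP.of Λ D v (τv v a)) {S T : Set V}
    (h : S ⊆ T) : PT hτ S ≤ PT hτ T := fun _ hx => para_mono h hx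

theorem inr_mem (hτ : ∀ v a, τ (GrP.of Λ D v a) = GrP.of Λ D v (τv v a)) (T : Set V)
    (n : Multiplicative ℤ) : (SemidirectProduct.inr n : MT τ) ∈ PT hτ T :=
  (para Λ D T).one_mem

theorem inl_mem (hτ : ∀ v a, τ (GrP.of Λ D v a) = GrP.of Λ D v (τv v a)) {T : Set V}
    {y : GrP Λ D} (hy : y ∈ para Λ D T) : (SemidirectProduct.inl y : MT τ) ∈ PT hτ T := hy

/-- the retraction of the mapping torus -/
noncomputable def RT (hτ : ∀ v a, τ (GrP.of Λ D v a) = GrP.of Λ D v (τv v a)) (T : Set V) :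
    MT τ →* MT τ :=
  SemidirectProduct.map (ret Λ D T) (MonoidHom.id _) (by
    intro n
    exact MonoidHom.ext fun y => ret_phi hτ T n y)

theorem RT_mem (hτ : ∀ v a, τ (GrP.of Λ D v a) = GrP.of Λ D v (τv v a)) (T : Set V) (x : MT τ) :
    RT hτ T x ∈ PT hτ T := ret_range T _

theorem RT_fix (hτ : ∀ v a, τ (GrP.of Λ D v a) = GrP.of Λ D v (τv v a)) {T : Set V} {x : MT τ}
    (hx : x ∈ PT hτ T) : RT hτ T x = x := SemidirectProduct.ext (ret_fix hx) rfl

/-- commuting parts -/
theorem para_comm {S : Set V} {v : V} (hS : ∀ w ∈ S, Λ.Adj w v) {x y : GrP Λ D}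
    (hx : x ∈ para Λ D S) (hy : y ∈ para Λ D {v}) : x * y = y * x := by
  have h1 : para Λ D S ≤ Subgroup.centralizer (para Λ D {v} : Set (GrP Λ D)) := by
    refine para_le fun w hw a => ?_
    rw [Subgroup.mem_centralizer_iff]
    intro z hz
    have h2 : para Λ D {v} ≤ Subgroup.centralizer {GrP.of Λ D w a} := by
      refine para_le fun u hu b => ?_
      rw [Set.mem_singleton_iff] at hu
      subst hu
      rw [Subgroup.mem_centralizer_singleton_iff]
      exact (of_comm (hS w hw) a b).symm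
    exact (Subgroup.mem_centralizer_singleton_iff.1 (h2 hz))
  exact ((Subgroup.mem_centralizer_iff.1 (h1 hx)) y hy).symm

theorem para_split {S : Set V} {v : V} (hS : ∀ w ∈ S, Λ.Adj w v) {y : GrP Λ D}
    (hy : y ∈ para Λ D (insert v S)) : y = ret Λ D S y * ret Λ D {v} y := by
  have hvS : v ∉ S := fun h => Λ.loopless.irrefl _ (hS v h)
  let K : Subgroup (GrP Λ D) :=
    { carrier := {y | y = ret Λ D S y * ret Λ D {v} y}
      one_mem' := by simp
      mul_mem' := by
        intro a b ha hb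
        have hc := para_comm hS (ret_range S b) (ret_range {v} a)
        calc a * b = (ret Λ D S a * ret Λ D {v} a) * (ret Λ D S b * ret Λ D {v} b) := by
              rw [← ha, ← hb]
          _ = ret Λ D S a * (ret Λ D {v} a * ret Λ D S b) * ret Λ D {v} b := by
              simp only [mul_assoc]
          _ = ret Λ D S a * (ret Λ D S b * ret Λ D {v} a) * ret Λ D {v} b := by rw [hc]
          _ = ret Λ D S (a * b) * ret Λ D {v} (a * b) := by
              rw [map_mul, map_mul]
              simp only [mul_assoc]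
      inv_mem' := by
        intro a ha
        have hc := para_comm hS (ret_range S a) (ret_range {v} a)
        have h1 : a⁻¹ = (ret Λ D {v} a * ret Λ D S a)⁻¹ := by
          rw [← hc]
          exact congrArg _ ha
        show a⁻¹ = ret Λ D S a⁻¹ * ret Λ D {v} a⁻¹
        rw [map_inv, map_inv, ← mul_inv_rev]
        exact h1 }
  have h1 : para Λ D (insert v S) ≤ K := by
    refine para_le fun w hw a => ?_
    show GrP.of Λ D w a = ret Λ D S (GrP.of Λ D w a) * ret Λ D {v} (GrP.of Λ D w a)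
    rcases hw with rfl | hw
    · rw [ret_not hvS, ret_mem (Set.mem_singleton w), one_mul]
    · have hwv : w ∉ ({v} : Set V) := by
        rintro rfl
        exact hvS hw
      rw [ret_mem hw, ret_not hwv, mul_one]
  exact h1 hy

theorem ret_ret {S T : Set V} (h : S ⊆ T) (y : GrP Λ D) : ret Λ D S (ret Λ D T y) = ret Λ D S y := by
  have h1 : (ret Λ D S).comp (ret Λ D T) = ret Λ D S := by
    apply ghom_ext
    intro v a
    rw [MonoidHom.comp_apply]
    by_cases hT : v ∈ T
    · rw [ret_mem hT]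
    · rw [ret_not hT, ret_not (fun h' => hT (h h')), map_one]
  exact DFunLike.congr_fun h1 y

end tor

end Pool.Agent.Helper30K9.FJ
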