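import Pool.Agent.Helper30K9.FJ.Tor

/-!
# Mapping tori of automorphisms of graph products which preserve the vertex groups: membership
-/

set_option autoImplicit false

namespace Pool.Agent.Helper30K9.FJ

open Pool.Agent.Y110.FJ
open Pool.Agent.Y462.SS (Closed)
open Pool.Agent.R630.FJ (MT)

section tor

variable {V : Type} {Λ : SimpleGraph V} {D : V → Type} [∀ v, Group (D v)]
  {τ : MulAut (GrP Λ D)} {τv : ∀ v, MulAut (D v)}

theorem PT_le {T : Set V} (hτ : ∀ v a, τ (GrP.of Λ D v a) = GrP.of Λ D v (τv v a))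
    {K : Subgroup (MT τ)} (h1 : ∀ v ∈ T, ∀ a, (SemidirectProduct.inl (GrP.of Λ D v a) : MT τ) ∈ K)
    (h2 : ∀ n, (SemidirectProduct.inr n : MT τ) ∈ K) : PT hτ T ≤ K := by
  intro x hx
  have h3 : para Λ D T ≤ K.comap SemidirectProduct.inl := para_le fun v hv a => h1 v hv a
  have h4 : (SemidirectProduct.inl x.left : MT τ) ∈ K := h3 hx
  rw [← SemidirectProduct.inl_left_mul_inr_right x]
  exact K.mul_mem h4 (h2 _)

/-- two homomorphisms from a part agree if they agree on generators -/
theorem PT_hom_eq {T : Set V} (hτ : ∀ v a, τ (GrP.of Λ D v a) = GrP.of Λ D v (τv v a))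
    {H : Type} [Group H] {W : Subgroup (MT τ)} (hW : PT hτ T ≤ W) (h : W →* H) (f : PT hτ T →* H)
    (h1 : ∀ (v : V) (hv : v ∈ T) (a : D v),
      h ⟨SemidirectProduct.inl (GrP.of Λ D v a), hW (inl_mem hτ (of_mem_para hv a))⟩ =
        f ⟨SemidirectProduct.inl (GrP.of Λ D v a), inl_mem hτ (of_mem_para hv a)⟩)
    (h2 : ∀ n, h ⟨SemidirectProduct.inr n, hW (inr_mem hτ T n)⟩ =
      f ⟨SemidirectProduct.inr n, inr_mem hτ T n⟩) (x : PT hτ T) :
    h ⟨x, hW x.2⟩ = f x := by
  have h3 : PT hτ T ≤ ((h.comp (Subgroup.inclusion hW)).eqLocus f).map (PT hτ T).subtype := by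
    refine PT_le hτ ?_ ?_
    · intro v hv a
      exact ⟨⟨SemidirectProduct.inl (GrP.of Λ D v a), inl_mem hτ (of_mem_para hv a)⟩, h1 v hv a, rfl⟩
    · intro n
      exact ⟨⟨SemidirectProduct.inr n, inr_mem hτ T n⟩, h2 n, rfl⟩
  obtain ⟨y, hy, hyx⟩ := h3 x.2
  have h4 : y = x := Subtype.ext hyx
  rw [← h4]
  exact hy

variable {C : ∀ (G : Type) [Group G], Prop}

theorem amg (hτ : ∀ v a, τ (GrP.of Λ D v a) = GrP.of Λ D v (τv v a)) (T : Set V) {v : V}
    (hv : v ∉ T) :
    Amg (G := PT hτ (insert v T)) ((PT hτ T).subgroupOf _)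
      ((PT hτ (insert v {w | w ∈ T ∧ Λ.Adj w v})).subgroupOf _)
      ((PT hτ {w | w ∈ T ∧ Λ.Adj w v}).subgroupOf _) := by
  classical
  obtain ⟨S, hS⟩ : ∃ S : Set V, S = {w | w ∈ T ∧ Λ.Adj w v} := ⟨_, rfl⟩
  obtain ⟨W, hW⟩ : ∃ W, W = PT hτ (insert v T) := ⟨_, rfl⟩
  rw [← hS, ← hW]
  have hST : S ⊆ T := by rw [hS]; exact fun w hw => hw.1
  have hTW : PT hτ T ≤ W := by rw [hW]; exact PT_mono hτ (Set.subset_insert v T)
  have hSW : PT hτ (insert v S) ≤ W := by rw [hW]; exact PT_mono hτ (Set.insert_subset_insert hST)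
  refine ⟨?_, ?_, ?_, ?_⟩
  · exact fun x hx => PT_mono hτ hST hx
  · exact fun x hx => PT_mono hτ (Set.subset_insert v S) hx
  · rw [eq_top_iff]
    intro x _
    have h1 : W ≤ ((PT hτ T).subgroupOf W ⊔ (PT hτ (insert v S)).subgroupOf W).map W.subtype := by
      rw [Subgroup.map_sup, Subgroup.map_subgroupOf_eq_of_le hTW,
        Subgroup.map_subgroupOf_eq_of_le hSW]
      nth_rewrite 1 [hW]
      refine PT_le hτ ?_ ?_
      · rintro w (rfl | hw) a
        · exact Subgroup.mem_sup_right (inl_mem hτ (of_mem_para (Set.mem_insert _ _) a))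
        · exact Subgroup.mem_sup_left (inl_mem hτ (of_mem_para hw a))
      · intro n
        exact Subgroup.mem_sup_left (inr_mem hτ T n)
    obtain ⟨y, hy, hyx⟩ := h1 x.2
    have h2 : y = x := Subtype.ext hyx
    rw [← h2]
    exact hy
  · intro H _ f g hfg
    -- inclusions
    let fT : PT hτ T →* H := f.comp ((Subgroup.subgroupOfEquivOfLe hTW).symm.toMonoidHom)
    let gS : PT hτ (insert v S) →* H := g.comp ((Subgroup.subgroupOfEquivOfLe hSW).symm.toMonoidHom)
    have hfT : ∀ (x : MT τ) (hx : x ∈ PT hτ T), fT ⟨x, hx⟩ = f ⟨⟨x, hTW hx⟩, hx⟩ := fun x hx => rfl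
    have hgS : ∀ (x : MT τ) (hx : x ∈ PT hτ (insert v S)),
        gS ⟨x, hx⟩ = g ⟨⟨x, hSW hx⟩, hx⟩ := fun x hx => rfl
    have hag : ∀ (x : MT τ) (hx : x ∈ PT hτ S),
        fT ⟨x, PT_mono hτ hST hx⟩ = gS ⟨x, PT_mono hτ (Set.subset_insert v S) hx⟩ := by
      intro x hx
      exact hfg ⟨x, hTW (PT_mono hτ hST hx)⟩ hx
    let k : ∀ w, D w →* H := fun w =>
      if hw : w ∈ T then fT.comp (((SemidirectProduct.inl (φ := zpowersHom _ τ)).comp
        (GrP.of Λ D w)).codRestrict (PT hτ T) fun a => inl_mem hτ (of_mem_para hw a))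
      else if hwv : w = v then gS.comp (((SemidirectProduct.inl (φ := zpowersHom _ τ)).comp
        (GrP.of Λ D w)).codRestrict (PT hτ (insert v S)) fun a =>
          inl_mem hτ (of_mem_para (hwv ▸ Set.mem_insert _ _) a))
      else 1
    have kT : ∀ w (hw : w ∈ T) (a : D w), k w a =
        fT ⟨SemidirectProduct.inl (GrP.of Λ D w a), inl_mem hτ (of_mem_para hw a)⟩ := by
      intro w hw a
      simp only [k, dif_pos hw]
      rfl
    have kv : ∀ a : D v, k v a = gS ⟨SemidirectProduct.inl (GrP.of Λ D v a),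
        inl_mem hτ (of_mem_para (Set.mem_insert _ _) a)⟩ := by
      intro a
      simp only [k, dif_neg hv]
      rfl
    have k0 : ∀ w, w ∉ T → w ≠ v → ∀ a : D w, k w a = 1 := by
      intro w hw hwv a
      simp only [k, dif_neg hw, dif_neg hwv]
      rfl
    have kSv : ∀ w (hw : w ∈ S) (a : D w), k w a =
        gS ⟨SemidirectProduct.inl (GrP.of Λ D w a),
          inl_mem hτ (of_mem_para (Set.mem_insert_of_mem _ hw) a)⟩ := by
      intro w hw a
      rw [kT w (hST hw)]
      exact hag _ (inl_mem hτ (of_mem_para hw a))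
    have hvcomm : ∀ w (a : D v) (b : D w), Λ.Adj v w → k v a * k w b = k w b * k v a := by
      intro w a b h
      by_cases hw : w ∈ T
      · have hwS : w ∈ S := by rw [hS]; exact ⟨hw, h.symm⟩
        rw [kv, kSv w hwS, ← map_mul, ← map_mul]
        refine congrArg gS (Subtype.ext ?_)
        show SemidirectProduct.inl _ * SemidirectProduct.inl _ =
          SemidirectProduct.inl _ * SemidirectProduct.inl _
        rw [← map_mul, ← map_mul, of_comm h]
      · rw [k0 w hw h.ne', mul_one, one_mul]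
    let f1 : GrP Λ D →* H := glift Λ D k (by
      intro u w a b h
      by_cases hu : u ∈ T
      · by_cases hw : w ∈ T
        · rw [kT u hu, kT w hw, ← map_mul, ← map_mul]
          refine congrArg fT (Subtype.ext ?_)
          show SemidirectProduct.inl _ * SemidirectProduct.inl _ =
            SemidirectProduct.inl _ * SemidirectProduct.inl _
          rw [← map_mul, ← map_mul, of_comm h]
        · by_cases hwv : w = v
          · subst hwv
            exact (hvcomm u b a h.symm).symm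
          · rw [k0 w hw hwv, mul_one, one_mul]
      · by_cases huv : u = v
        · subst huv
          exact hvcomm w a b h
        · rw [k0 u hu huv, mul_one, one_mul])
    let f2 : Multiplicative ℤ →* H :=
      fT.comp ((SemidirectProduct.inr (φ := zpowersHom _ τ)).codRestrict (PT hτ T)
        fun n => inr_mem hτ T n)
    have hf2 : ∀ n, f2 n = fT ⟨SemidirectProduct.inr n, inr_mem hτ T n⟩ := fun n => rfl
    have hf2' : ∀ n, f2 n = gS ⟨SemidirectProduct.inr n, inr_mem hτ _ n⟩ := by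
      intro n
      rw [hf2]
      exact hag _ (inr_mem hτ S n)
    have hf1 : ∀ w a, f1 (GrP.of Λ D w a) = k w a := fun w a => glift_of Λ D k _ w a
    have hcompat : ∀ n, f1.comp (zpowersHom (MulAut (GrP Λ D)) τ n).toMonoidHom =
        (MulAut.conj (f2 n)).toMonoidHom.comp f1 := by
      intro n
      apply ghom_ext
      intro w a
      show f1 (zpowersHom (MulAut (GrP Λ D)) τ n (GrP.of Λ D w a)) =
        f2 n * f1 (GrP.of Λ D w a) * (f2 n)⁻¹
      rw [phi_of hτ, hf1, hf1]
      have hin : ∀ a : D w, (SemidirectProduct.inl (GrP.of Λ D w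
          (zpowersHom (MulAut (D w)) (τv w) n a)) : MT τ) =
          SemidirectProduct.inr n * SemidirectProduct.inl (GrP.of Λ D w a) *
            (SemidirectProduct.inr n)⁻¹ := by
        intro a
        rw [← phi_of hτ, SemidirectProduct.inl_aut, map_inv]
      by_cases hw : w ∈ T
      · rw [kT w hw, kT w hw, hf2, ← map_inv, ← map_mul, ← map_mul]
        exact congrArg fT (Subtype.ext (hin a))
      · by_cases hwv : w = v
        · subst hwv
          rw [kv, kv, hf2', ← map_inv, ← map_mul, ← map_mul]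
          exact congrArg gS (Subtype.ext (hin a))
        · rw [k0 w hw hwv, k0 w hw hwv, mul_one, mul_inv_cancel]
    let h0 : MT τ →* H := SemidirectProduct.lift f1 f2 hcompat
    have h0l : ∀ y, h0 (SemidirectProduct.inl y) = f1 y := fun y => SemidirectProduct.lift_inl _ _ _ y
    have h0r : ∀ n, h0 (SemidirectProduct.inr n) = f2 n := fun n => SemidirectProduct.lift_inr _ _ _ n
    refine ⟨h0.comp W.subtype, ?_, ?_⟩
    · rintro ⟨⟨x, hxW⟩, hx⟩
      have h3 := PT_hom_eq hτ hTW (h0.comp W.subtype) fT (fun w hw a => ?_) (fun n => ?_) ⟨x, hx⟩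
      · exact h3
      · show h0 (SemidirectProduct.inl (GrP.of Λ D w a)) = _
        rw [h0l, hf1, kT w hw]
      · show h0 (SemidirectProduct.inr n) = _
        rw [h0r, hf2]
    · rintro ⟨⟨x, hxW⟩, hx⟩
      have h3 := PT_hom_eq hτ hSW (h0.comp W.subtype) gS (fun w hw a => ?_) (fun n => ?_) ⟨x, hx⟩
      · exact h3
      · show h0 (SemidirectProduct.inl (GrP.of Λ D w a)) = _
        rw [h0l, hf1]
        rcases hw with rfl | hw
        · rw [kv]
        · rw [kSv w hw]
      · show h0 (SemidirectProduct.inr n) = _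
        rw [h0r, hf2']

end tor

end Pool.Agent.Helper30K9.FJ
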