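import Pool.Agent.Helper30K9.FJ.TorC

/-!
# Mapping tori of automorphisms of graph products which permute the vertex groups: membership
-/

set_option autoImplicit false

namespace Pool.Agent.Helper30K9.FJ

open Pool.Agent.Y110.FJ
open Pool.Agent.Y462.SS (Closed)
open Pool.Agent.R630.FJ (MT Ksub exists_j)

section tor

variable {V : Type} {Λ : SimpleGraph V} {D : V → Type} [∀ v, Group (D v)]
  {τ : MulAut (GrP Λ D)} {τv : ∀ v, MulAut (D v)} {C : ∀ (G : Type) [Group G], Prop}

open Classical in
/-- the projection to a vertex group -/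
noncomputable def prv (Λ : SimpleGraph V) (D : V → Type) [∀ v, Group (D v)] (v : V) :
    GrP Λ D →* D v :=
  glift Λ D (fun w => if h : w = v then h ▸ MonoidHom.id (D w) else 1) (by
    intro u w a b h
    by_cases hu : u = v
    · by_cases hw : w = v
      · exact absurd (hu.trans hw.symm) h.ne
      · rw [dif_neg hw, MonoidHom.one_apply, mul_one, one_mul]
    · rw [dif_neg hu, MonoidHom.one_apply, mul_one, one_mul])

theorem prv_of (v : V) (a : D v) : prv Λ D v (GrP.of Λ D v a) = a := by
  rw [prv, glift_of, dif_pos rfl]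
  rfl

theorem prv_ne {v w : V} (h : w ≠ v) (a : D w) : prv Λ D v (GrP.of Λ D w a) = 1 := by
  rw [prv, glift_of, dif_neg h]
  rfl

theorem of_prv {v : V} {y : GrP Λ D} (hy : y ∈ para Λ D {v}) : GrP.of Λ D v (prv Λ D v y) = y := by
  have h1 : para Λ D {v} ≤ ((GrP.of Λ D v).comp (prv Λ D v)).eqLocus (MonoidHom.id _) := by
    refine para_le fun w hw a => ?_
    rw [Set.mem_singleton_iff] at hw
    subst hw
    show GrP.of Λ D w (prv Λ D w (GrP.of Λ D w a)) = _
    rw [prv_of]
    rfl
  exact h1 hy

theorem prv_phi (hτ : ∀ v a, τ (GrP.of Λ D v a) = GrP.of Λ D v (τv v a)) (v : V)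
    (n : Multiplicative ℤ) (y : GrP Λ D) :
    prv Λ D v (zpowersHom (MulAut (GrP Λ D)) τ n y) =
      zpowersHom (MulAut (D v)) (τv v) n (prv Λ D v y) := by
  have h : (prv Λ D v).comp (zpowersHom (MulAut (GrP Λ D)) τ n).toMonoidHom =
      (zpowersHom (MulAut (D v)) (τv v) n).toMonoidHom.comp (prv Λ D v) := by
    apply ghom_ext
    intro w a
    show prv Λ D v (zpowersHom (MulAut (GrP Λ D)) τ n (GrP.of Λ D w a)) =
      zpowersHom (MulAut (D v)) (τv v) n (prv Λ D v (GrP.of Λ D w a))
    rw [phi_of hτ]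
    by_cases hw : w = v
    · subst hw
      rw [prv_of, prv_of]
    · rw [prv_ne hw, prv_ne hw, map_one]
  exact DFunLike.congr_fun h y

/-- the projection of the mapping torus -/
noncomputable def MTpr (hτ : ∀ v a, τ (GrP.of Λ D v a) = GrP.of Λ D v (τv v a)) (v : V) :
    MT τ →* MT (τv v) :=
  SemidirectProduct.map (prv Λ D v) (MonoidHom.id _) (by
    intro n
    exact MonoidHom.ext fun y => prv_phi hτ v n y)

theorem C_single (hC : Closed C) (hτ : ∀ v a, τ (GrP.of Λ D v a) = GrP.of Λ D v (τv v a)) {v : V}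
    (h : C (MT (τv v))) : C (PT hτ {v}) := by
  refine hC.of_injective _ _ ((MTpr hτ v).comp (PT hτ {v}).subtype) ?_ h
  rw [injective_iff_map_eq_one]
  rintro ⟨x, hx⟩ h1
  have h2 : prv Λ D v x.left = 1 := congrArg SemidirectProduct.left h1
  have h3 : x.right = 1 := congrArg SemidirectProduct.right h1
  apply Subtype.ext
  refine SemidirectProduct.ext ?_ h3
  rw [← of_prv (mem_PT hτ |>.1 hx), h2, map_one]
  rfl

theorem C_empty (hC : Closed C) (hτ : ∀ v a, τ (GrP.of Λ D v a) = GrP.of Λ D v (τv v a)) :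
    C (PT hτ ∅) := by
  refine hC.of_injective _ _ ((SemidirectProduct.rightHom).comp (PT hτ ∅).subtype) ?_ hC.int
  rw [injective_iff_map_eq_one]
  rintro ⟨x, hx⟩ h1
  have h3 : x.right = 1 := h1
  have h4 : para Λ D ∅ ≤ ⊥ := para_le fun v hv => absurd hv (Set.notMem_empty v)
  apply Subtype.ext
  exact SemidirectProduct.ext (Subgroup.mem_bot.1 (h4 hx)) h3

theorem C_PT (hC : ClosedE C) (hτ : ∀ v a, τ (GrP.of Λ D v a) = GrP.of Λ D v (τv v a))
    (h : ∀ v, C (MT (τv v))) (T : Finset V) : C (PT hτ (T : Set V)) := by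
  classical
  induction T using Finset.induction_on with
  | empty =>
    rw [Finset.coe_empty]
    exact C_empty hC.base hτ
  | insert v T hv ih =>
    rw [Finset.coe_insert]
    have hvT : v ∉ (T : Set V) := by simpa using hv
    have hP : C (PT hτ (T : Set V) × PT hτ {v}) := hC.base.prod _ _ ih (C_single hC.base hτ (h v))
    let F : PT hτ (insert v (T : Set V)) →* (PT hτ (T : Set V)) × (PT hτ {v}) :=
      ((RT hτ (T : Set V)).codRestrict _ (RT_mem hτ _)).prod
        ((RT hτ {v}).codRestrict _ (RT_mem hτ _)) |>.comp (Subgroup.subtype _)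
    refine s_am C hC _ _ _ _ _ (amg hτ (T : Set V) hvT) F ?_ ?_ hP
    · rintro ⟨x, hxW⟩ hx h1
      have h2 : RT hτ (T : Set V) x = 1 := congrArg Subtype.val (congrArg Prod.fst h1)
      rw [RT_fix hτ (Subgroup.mem_subgroupOf.1 hx)] at h2
      exact Subtype.ext h2
    · rintro ⟨x, hxW⟩ hx h1
      have h2 : RT hτ (T : Set V) x = 1 := congrArg Subtype.val (congrArg Prod.fst h1)
      have h3 : RT hτ {v} x = 1 := congrArg Subtype.val (congrArg Prod.snd h1)
      have h4 : ret Λ D (T : Set V) x.left = 1 := congrArg SemidirectProduct.left h2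
      have h5 : ret Λ D {v} x.left = 1 := congrArg SemidirectProduct.left h3
      have h6 : x.right = 1 := congrArg SemidirectProduct.right h2
      have hS : ({w | w ∈ (T : Set V) ∧ Λ.Adj w v} : Set V) ⊆ (T : Set V) := fun w hw => hw.1
      have h7 := para_split (fun w hw => hw.2) (show x.left ∈ para Λ D _ from Subgroup.mem_subgroupOf.1 hx)
      rw [h5, mul_one, ← ret_ret hS, h4, map_one] at h7
      exact Subtype.ext (SemidirectProduct.ext h7 h6)

theorem C_MT_fix [Finite V] (hC : ClosedE C)
    (hτ : ∀ v a, τ (GrP.of Λ D v a) = GrP.of Λ D v (τv v a)) (h : ∀ v, C (MT (τv v))) :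
    C (MT τ) := by
  classical
  have := Fintype.ofFinite V
  have h1 := C_PT hC hτ h Finset.univ
  have h2 : PT hτ ((Finset.univ : Finset V) : Set V) = ⊤ := by
    rw [Finset.coe_univ, eq_top_iff]
    intro x _
    rw [mem_PT, para_univ]
    exact Subgroup.mem_top _
  rw [h2] at h1
  exact hC.base.of_injective _ _ (Subgroup.topEquiv (G := MT τ)).symm.toMonoidHom
    (Subgroup.topEquiv (G := MT τ)).symm.injective h1

/-- finite index -/
theorem C_MT_pow (hC : Closed C) {N : Type} [Group N] (σ : MulAut N) {k : ℕ} (hk : 0 < k)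
    (h : C (MT (σ ^ k))) : C (MT σ) := by
  have hk0 : (k : ℤ) ≠ 0 := by exact_mod_cast hk.ne'
  have hdiv : ∀ j : ℤ, (k : ℤ) * j / k = j := fun j => Int.mul_ediv_cancel_left j hk0
  have hpow : ∀ (j : ℤ) (x : N), (zpowersHom (MulAut N) σ (Multiplicative.ofAdd ((k : ℤ) * j))) x =
      (zpowersHom (MulAut N) (σ ^ k) (Multiplicative.ofAdd j)) x := by
    intro j x
    rw [zpowersHom_apply, toAdd_ofAdd, zpow_mul, zpow_natCast, zpowersHom_apply, toAdd_ofAdd]
  have hdm : ∀ x : Ksub σ k, ∃ j : ℤ, (x : MT σ).right = Multiplicative.ofAdd ((k : ℤ) * j) ∧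
      Multiplicative.toAdd (x : MT σ).right / k = j := by
    intro x
    obtain ⟨j, hj⟩ := exists_j σ x
    exact ⟨j, hj, by rw [hj, toAdd_ofAdd, hdiv]⟩
  let F : Ksub σ k →* MT (σ ^ k) :=
    { toFun := fun x => ⟨(x : MT σ).left,
        Multiplicative.ofAdd (Multiplicative.toAdd (x : MT σ).right / (k : ℤ))⟩
      map_one' := by
        refine SemidirectProduct.ext rfl ?_
        show Multiplicative.ofAdd ((0 : ℤ) / (k : ℤ)) = 1
        rw [Int.zero_ediv]
        rfl
      map_mul' := by
        intro x y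
        obtain ⟨j, hj, hj'⟩ := hdm x
        obtain ⟨i, hi, hi'⟩ := hdm y
        refine SemidirectProduct.ext ?_ ?_
        · show (x : MT σ).left * zpowersHom (MulAut N) σ (x : MT σ).right (y : MT σ).left =
            (x : MT σ).left * zpowersHom (MulAut N) (σ ^ k)
              (Multiplicative.ofAdd (Multiplicative.toAdd (x : MT σ).right / (k : ℤ))) (y : MT σ).left
          rw [hj', hj, hpow]
        · show Multiplicative.ofAdd (Multiplicative.toAdd ((x : MT σ).right * (y : MT σ).right) /
            (k : ℤ)) = Multiplicative.ofAdd (Multiplicative.toAdd (x : MT σ).right / (k : ℤ)) *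
              Multiplicative.ofAdd (Multiplicative.toAdd (y : MT σ).right / (k : ℤ))
          rw [hj', hi', hj, hi, ← ofAdd_add, ← ofAdd_add, toAdd_ofAdd, ← mul_add, hdiv] }
  have hF : Function.Injective F := by
    rw [injective_iff_map_eq_one]
    intro x hx
    have h1 : (x : MT σ).left = 1 := congrArg SemidirectProduct.left hx
    have h2 : Multiplicative.ofAdd (Multiplicative.toAdd (x : MT σ).right / (k : ℤ)) = 1 :=
      congrArg SemidirectProduct.right hx
    obtain ⟨j, hj, hj'⟩ := hdm x
    rw [hj'] at h2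
    have h3 : j = 0 := h2
    refine Subtype.ext (SemidirectProduct.ext h1 ?_)
    rw [hj, h3, mul_zero]
    rfl
  have hfi : (Ksub σ k).FiniteIndex := by
    have h1 : (Ksub σ k).index = (Subgroup.zpowers (Multiplicative.ofAdd (k : ℤ))).index :=
      Subgroup.index_comap_of_surjective _ SemidirectProduct.rightHom_surjective
    constructor
    rw [h1]
    have h2 := Int.index_zmultiples (k : ℤ)
    have h3 : (Subgroup.zpowers (Multiplicative.ofAdd (k : ℤ))).index =
        (AddSubgroup.zmultiples (k : ℤ)).index := by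
      rw [← AddSubgroup.index_toSubgroup]
      rfl
    rw [h3, h2]
    simpa using hk.ne'
  exact hC.finiteIndex _ (Ksub σ k) hfi (hC.of_injective _ _ F hF h)

end tor

end Pool.Agent.Helper30K9.FJ
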